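import Pool.Agent.Lib.MP_ed661f_ag.R.Main
import Pool.Agent.Lib.MP_ed661f_ag.R.Extend

/-!
Ample line bundles whose `n`-point Seshadri constant is `√(L²/n)` for every `n ≥ 1`.
-/

open MvPolynomial

namespace Pool.Agent.Results.MP_ed661f_ag.EveryN

open Pool.Agent.Lib.MP_ed661f_ag.R Pool.Agent.Lib.MP_ed661f_ag.E

theorem inter_aff (a b : ℕ) (c : Fin 5 → ℕ) (x x' : Fin 5 → Fin 2 → ℂ)
    (F : MvPolynomial (Fin 2) ℂ) (hF : Irreducible F) :
    inter a b c x x' (Curve.aff F hF) = degL a b c x x' F := rfl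

theorem seshadriX_eq (a b : ℕ) (c : Fin 5 → ℕ) (x x' : Fin 5 → Fin 2 → ℂ) {n : ℕ}
    (y : Fin n → Fin 2 → ℂ) : seshadriX a b c x x' y = seshadri a b c x x' y := by
  unfold seshadriX seshadri
  congr 1
  ext r
  constructor
  · rintro ⟨C, hC, rfl⟩
    rcases C with j | j | _ | _ | ⟨F, hF⟩
    · simp [Curve.mult] at hC
    · simp [Curve.mult] at hC
    · simp [Curve.mult] at hC
    · simp [Curve.mult] at hC
    · refine ⟨F, hF, ?_, ?_⟩
      · by_contra hcon
        push Not at hcon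
        have : ∑ i, (Curve.aff F hF).mult (y i) = 0 := by
          refine Finset.sum_eq_zero fun i _ => ?_
          by_contra h
          exact hcon i ((mlt_pos_iff hF.ne_zero).1 (Nat.one_le_iff_ne_zero.2 h))
        omega
      · rw [inter_aff]
        have : ((∑ i, (Curve.aff F hF).mult (y i) : ℕ) : ℝ) = ∑ i, (mlt (y i) F : ℝ) := by
          push_cast
          rfl
        rw [this]
  · rintro ⟨F, hF, ⟨i, hi⟩, rfl⟩
    refine ⟨Curve.aff F hF, ?_, ?_⟩
    · have h1 : 1 ≤ mlt (y i) F := (mlt_pos_iff hF.ne_zero).2 hi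
      exact Finset.sum_pos' (fun _ _ => Nat.zero_le _) ⟨i, Finset.mem_univ i, h1⟩
    · rw [inter_aff]
      have : ((∑ i, (Curve.aff F hF).mult (y i) : ℕ) : ℝ) = ∑ i, (mlt (y i) F : ℝ) := by
        push_cast
        rfl
      rw [this]

/-- Let `a, b, c_1, .., c_5 ≥ 1` be integers with `a + b = c_1 + .. + c_5` and
`L² = 2ab - 2 ∑ c_j² > 0`, `X` the blow-up of `ℙ¹ × ℙ¹` in ten very general points and
`L = O(a,b) - ∑ c_j (E_j + E'_j)`. Then `L` is positive on every curve of `X` (so `L` is ample) and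
the Seshadri constant of `L` at `n` very general points is `√(L²/n)`, for every `n ≥ 1`. -/
theorem result (a b : ℕ) (c : Fin 5 → ℕ) (hc : ∀ j, 1 ≤ c j) (hab : a + b = ∑ j, c j)
    (hL : 0 < selfInter a b c) (x x' : Fin 5 → Fin 2 → ℂ) (hx : VeryGeneral (Sum.elim x x')) :
    (∀ C : Curve, 0 < inter a b c x x' C) ∧
      ∀ n : ℕ, 1 ≤ n → ∀ y : Fin n → Fin 2 → ℂ, VeryGeneral (Sum.elim (Sum.elim x x') y) →
        seshadriX a b c x x' y = Real.sqrt (selfInter a b c / n) := by
  have hD : ∑ j, c j ^ 2 < a * b := by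
    unfold selfInter at hL
    have : (∑ j, (c j : ℤ) ^ 2) < (a : ℤ) * b := by linarith
    exact_mod_cast this
  have habp : 0 < a * b := lt_of_le_of_lt (Nat.zero_le _) hD
  have ha : 0 < a := Nat.pos_of_mul_pos_right habp
  have hb : 0 < b := Nat.pos_of_mul_pos_left habp
  have hassoc : ∀ {n : ℕ} {y : Fin n → Fin 2 → ℂ}, VeryGeneral (Sum.elim (Sum.elim x x') y) →
      Generic (Sum.elim x (Sum.elim x' y)) := by
    intro n y hy
    have h1 : Generic (Sum.elim (Sum.elim x x') y) := hy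
    have h2 := h1.comp (Equiv.sumAssoc (Fin 5) (Fin 5) (Fin n)).symm (Equiv.injective _)
    have h3 : Sum.elim (Sum.elim x x') y ∘ (Equiv.sumAssoc (Fin 5) (Fin 5) (Fin n)).symm =
        Sum.elim x (Sum.elim x' y) := by
      funext i
      rcases i with i | i | i <;> rfl
    rwa [h3] at h2
  refine ⟨?_, ?_⟩
  · obtain ⟨p, hp⟩ := exists_extend hx
    intro C
    rcases C with j | j | _ | _ | ⟨F, hF⟩
    · exact Nat.cast_pos.2 (hc j)
    · exact Nat.cast_pos.2 (hc j)
    · exact Nat.cast_pos.2 hb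
    · exact Nat.cast_pos.2 ha
    · exact ample hab hD le_rfl hc (hassoc hp) hF
  · intro n hn y hy
    rw [seshadriX_eq, (main hc hab hD hn (hassoc hy)).2]
    congr 1
    unfold selfInter
    push_cast
    ring

end Pool.Agent.Results.MP_ed661f_ag.EveryN
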