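import Pool.Agent.Lib.MP_ed661f_ag.W.Thm2
import Pool.Agent.Lib.MP_ed661f_ag.W.Irr

/-!
Blow-ups `X` of arbitrary surfaces: six-dimensional lattices in which all classes `L` of the
positive cone are ample and satisfy `ε(n; X, L) = √(L²/n)` for every `n ≥ 1`.
-/

open MvPolynomial

namespace Pool.Agent.Results.MP_ed661f_ag.EverySurface

open Pool.Agent.Lib.MP_ed661f_ag.H Pool.Agent.Lib.MP_ed661f_ag.W

/-- Let `S` be an irreducible surface in a projective space, with homogeneous ideal `I`, of degree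
`d`, with hyperplane class `H`. There is a countable field `K` such that the following holds for
the tuples of points of `S` which are very general in the sense of `Gen K I` (they exist).
For every `r ≥ 4 d + 12` there is a subgroup `V ≅ ℤ^6` (the image of `T`) of the group `ℤ^(r + 1)`
of the classes `L = h H - ∑ m_i E_i` (`h = L 0`, `m_i = L i.succ`) on the blow-ups of `S` in `r`
points, which contains classes with `h > 0`, `L² > 0`, such that every `L ∈ V` with `h > 0` and
`L² > 0` has the following properties: all `m_i` are positive, and if `x_1, .., x_r` are very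
general, then `L · C > 0` for every curve `C` on `S`, and for every `n ≥ 1` the Seshadri constant
of `L` at `n` very general points `y_j` is `√(L² / n)`. -/
theorem result (N : ℕ) (I : Ideal (Poly N)) (hI : IsSurface I) :
    ∃ d : ℕ, 1 ≤ d ∧ surfDeg I = d ∧
      ∃ K : Subfield ℂ, (K : Set ℂ).Countable ∧
        (∀ p : ℕ, ∃ v : Fin p → Fin (N + 1) → ℂ, Gen K I v) ∧
        ∀ r : ℕ, 4 * d + 12 ≤ r → ∃ T : (Fin 6 → ℤ) →+ (Fin (r + 1) → ℤ),
          Function.Injective T ∧ (∃ L ∈ Set.range T, 0 < L 0 ∧ 0 < selfL I L) ∧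
          ∀ L ∈ Set.range T, 0 < L 0 → 0 < selfL I L →
            (∀ i : Fin r, 0 < L i.succ) ∧
            ∀ x : Fin r → Fin (N + 1) → ℂ, Gen K I x →
              (∀ P, IsCurveOn I P → 0 < interL L x P) ∧
              ∀ n : ℕ, 1 ≤ n → ∀ y : Fin n → Fin (N + 1) → ℂ, Gen K I (Sum.elim x y) →
                seshadriL I L x y = Real.sqrt (selfL I L / n) :=
  thm hI

/-- Corollary: blow-ups of an arbitrary surface `S` carry ample classes whose one-point Seshadri
constant at the very general point is irrational. -/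
theorem irrational (N : ℕ) (I : Ideal (Poly N)) (hI : IsSurface I) :
    ∃ d : ℕ, 1 ≤ d ∧ surfDeg I = d ∧
      ∃ K : Subfield ℂ, (K : Set ℂ).Countable ∧
        (∀ p : ℕ, ∃ v : Fin p → Fin (N + 1) → ℂ, Gen K I v) ∧
        ∀ r : ℕ, 4 * d + 12 ≤ r → ∃ L : Fin (r + 1) → ℤ,
          0 < L 0 ∧ 0 < selfL I L ∧ (∀ i : Fin r, 0 < L i.succ) ∧
            ∀ x : Fin r → Fin (N + 1) → ℂ, Gen K I x →
              (∀ P, IsCurveOn I P → 0 < interL L x P) ∧
              ∀ y : Fin 1 → Fin (N + 1) → ℂ, Gen K I (Sum.elim x y) →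
                Irrational (seshadriL I L x y) := by
  obtain ⟨d, hd, hdeg, K, hK, hgen, h⟩ := result N I hI
  refine ⟨d, hd, hdeg, K, hK, hgen, fun r hr => ?_⟩
  obtain ⟨T, hT, ⟨L₀, hL₀, h0, hself⟩, hall⟩ := h r hr
  have hcast : ∀ L : Fin (r + 1) → ℤ, selfL I L
      = (((L 0) ^ 2 * d - ∑ i : Fin r, L i.succ ^ 2 : ℤ) : ℝ) := by
    intro L
    simp only [selfL, hdeg]
    push_cast
    simp
  obtain ⟨L, hL, hL0, hLs, hsq⟩ := exists_nonsquare_class d hd T hT
    ⟨L₀, hL₀, h0, by
      rw [hcast] at hself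
      have : (0 : ℤ) < (L₀ 0) ^ 2 * d - ∑ i : Fin r, L₀ i.succ ^ 2 := by exact_mod_cast hself
      linarith⟩
  have hpos : 0 < selfL I L := by
    rw [hcast]
    have : (0 : ℤ) < (L 0) ^ 2 * d - ∑ i : Fin r, L i.succ ^ 2 := by linarith
    exact_mod_cast this
  obtain ⟨hm, hx⟩ := hall L hL hL0 hpos
  refine ⟨L, hL0, hpos, hm, fun x hgx => ⟨(hx x hgx).1, fun y hy => ?_⟩⟩
  rw [(hx x hgx).2 1 le_rfl y hy, Nat.cast_one, div_one, hcast]
  rw [irrational_sqrt_intCast_iff]
  exact ⟨hsq, by linarith⟩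

end Pool.Agent.Results.MP_ed661f_ag.EverySurface
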