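import Pool.Agent.Lib.MP_ed661f_ag.V.Concl

/-!
The `n`-point Seshadri constants of the very general surfaces in all threefolds: if `W` is an
irreducible threefold of degree `e` in a projective space, and `X` is cut out by a very general
form of degree `m = e μ`, `μ ≥ 6`, then `ε(n; X, O(1)) = √(e m / n)` for every `n ≥ 1`.
-/

open MvPolynomial
open scoped ENNReal

namespace Pool.Agent.Results.MP_ed661f_ag.EveryThreefold

open Pool.Agent.Lib.MP_ed661f_ag.H Pool.Agent.Lib.MP_ed661f_ag.V

/-- Let `W` be the homogeneous ideal of an irreducible threefold in the projective space of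
dimension `N`. Its degree `e` is a positive integer, and for every `μ ≥ 6` there are very general
forms `G` of degree `m = e μ`, and for every such form the section `X : G = 0` of the threefold is
an irreducible surface, smooth if the threefold is smooth, the self-intersection of its hyperplane
class `H` is `e m`, and `ε(n; X, H) = √(e m / n)` for every `n ≥ 1`. -/
theorem result (N : ℕ) (W : Ideal (Poly N)) (hW : IsThreefold W) :
    ∃ e : ℕ, 1 ≤ e ∧ threeDeg W = e ∧ ∀ μ : ℕ, 6 ≤ μ →
      (∃ G : Poly N, VeryGeneralOn W (e * μ) G) ∧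
      ∀ G : Poly N, VeryGeneralOn W (e * μ) G →
        IsSurface (cutBy W G) ∧
        (IsSmooth 3 W → IsSmooth 2 (cutBy W G)) ∧
        surfDeg (cutBy W G) = ((e * (e * μ) : ℕ) : ℝ≥0∞) ∧
        ∀ n : ℕ, 1 ≤ n → eps (cutBy W G) n =
          ENNReal.ofReal (Real.sqrt (((e * (e * μ) : ℕ) : ℝ) / n)) :=
  concl W hW

end Pool.Agent.Results.MP_ed661f_ag.EveryThreefold
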