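import Pool.Agent.Lib.MP_ed661f_ag.X.Main

/-!
Multipoint Seshadri constants of irreducible projective surfaces: an exponentially small error.
The definitions (`IsSurface`, `IsCurveOn`, `hilb`, `deg`, `mult`, `surfDeg`, `seshadri`, `eps`) are
in `Pool.Agent.Lib.MP_ed661f_ag.H.Defs`.
-/

namespace Pool.Agent.Results.MP_ed661f_ag.SurfaceExponential

open Pool.Agent.Lib.MP_ed661f_ag.H

/-- There is an absolute constant `N0` such that the following holds. Let `I` be the homogeneous
ideal of an irreducible surface `X` in the projective space of dimension `N` and `L` its hyperplane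
class, so that `L ^ 2 = surfDeg I`. For all `n ≥ N0 L ^ 2` the `n`-point Seshadri constant of `L`
satisfies `ε(n) ^ 2 ≥ (L ^ 2 / n) (1 - exp (-n ^ (1 / 20)))`. -/
theorem result : ∃ N0 : ℕ, ∀ (N : ℕ) (I : Ideal (Poly N)), IsSurface I →
    ∀ n : ℕ, N0 * surfDeg I ≤ n →
      surfDeg I / n * ENNReal.ofReal (1 - Real.exp (-((n : ℝ) ^ (1 / 20 : ℝ)))) ≤
        eps I n ^ 2 := by
  obtain ⟨N0, -, h⟩ := Pool.Agent.Lib.MP_ed661f_ag.X.surface_boundX
  exact ⟨N0, h⟩

end Pool.Agent.Results.MP_ed661f_ag.SurfaceExponential
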